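import Mathlib

set_option autoImplicit false

namespace Pool.Agent.Results.MP_c5ead3_nt.AlmostPerfect

open Finset

/-- The sum of the positive divisors of `m`. -/
def sig (m : ℕ) : ℕ := ∑ d ∈ m.divisors, d

/-- `k` is a positive deficient number such that `k * n` is not deficient. -/
def Good (n k : ℕ) : Prop := 1 ≤ k ∧ sig k < 2 * k ∧ 2 * (k * n) ≤ sig (k * n)

/-- The least deficient `k` such that `k * n` is not deficient. -/
noncomputable def a (n : ℕ) : ℕ := sInf {k | Good n k}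

/-- `k` is almost perfect: `σ(k) = 2 k - 1`. -/
def IsAlmostPerfect (k : ℕ) : Prop := 1 ≤ k ∧ sig k + 1 = 2 * k

lemma sig_mul {m n : ℕ} (h : m.Coprime n) : sig (m * n) = sig m * sig n :=
  Nat.Coprime.sum_divisors_mul h

lemma sig_mul_le (m n : ℕ) : sig (m * n) ≤ sig m * sig n := by
  classical
  unfold sig
  have h1 : (m * n).divisors = (m.divisors ×ˢ n.divisors).image fun p => p.1 * p.2 := by
    rw [Nat.divisors_mul]; rfl
  rw [h1, Finset.sum_mul_sum, ← Finset.sum_product']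
  rw [← Finset.sum_fiberwise_of_maps_to (s := m.divisors ×ˢ n.divisors)
    (t := (m.divisors ×ˢ n.divisors).image fun p => p.1 * p.2) (g := fun p => p.1 * p.2)
    (fun x hx => Finset.mem_image_of_mem _ hx)]
  refine Finset.sum_le_sum fun x hx => ?_
  obtain ⟨p, hp, rfl⟩ := Finset.mem_image.1 hx
  exact Finset.single_le_sum (f := fun p : ℕ × ℕ => p.1 * p.2) (fun _ _ => Nat.zero_le _)
    (Finset.mem_filter.2 ⟨hp, rfl⟩)

lemma sum_two_pow (j : ℕ) : ∑ x ∈ range (j + 1), 2 ^ x + 1 = 2 ^ (j + 1) := by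
  induction j with
  | zero => simp
  | succ j ih =>
    rw [sum_range_succ, pow_succ 2 (j + 1)]
    omega

lemma sig_two_pow (j : ℕ) : sig (2 ^ j) + 1 = 2 ^ (j + 1) := by
  unfold sig
  rw [Nat.sum_divisors_prime_pow Nat.prime_two]
  exact sum_two_pow j

lemma le_sig {n : ℕ} (hn : 1 ≤ n) : n ≤ sig n :=
  Finset.single_le_sum (f := fun d : ℕ => d) (fun _ _ => Nat.zero_le _)
    (Nat.mem_divisors_self n (by omega))

/-- The divisors in a list of distinct divisors sum up to at most `sig n`. -/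
lemma sub_sig {n : ℕ} (s : Finset ℕ) (hs : ∀ d ∈ s, d ∣ n) (hn : n ≠ 0) : ∑ d ∈ s, d ≤ sig n :=
  Finset.sum_le_sum_of_subset fun d hd => Nat.mem_divisors.2 ⟨hs d hd, hn⟩

lemma sig_ge_succ {n : ℕ} (hn : 2 ≤ n) : n + 1 ≤ sig n := by
  have h := sub_sig (n := n) {n, 1} (by simp) (by omega)
  rw [Finset.sum_pair (by omega)] at h
  exact h

lemma sig_ge_div {n p : ℕ} (hn : 1 ≤ n) (hp : 2 ≤ p) (hpn : p ∣ n) : n + n / p ≤ sig n := by
  obtain ⟨m, rfl⟩ := hpn
  have hm : 1 ≤ m := by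
    rcases Nat.eq_zero_or_pos m with h | h
    · subst h; simp at hn
    · exact h
  have e : p * m / p = m := Nat.mul_div_cancel_left m (by omega)
  rw [e]
  have h := sub_sig (n := p * m) {p * m, m} (by simp) (by positivity)
  rw [Finset.sum_pair (by nlinarith)] at h
  exact h

lemma good_even {n : ℕ} (hn : 2 ≤ n) (he : 2 ∣ n) : Good n 1 ∨ Good n 3 := by
  by_cases h3 : 3 ∣ n
  · left
    obtain ⟨m, rfl⟩ : 6 ∣ n := by omega
    refine ⟨le_rfl, by decide, ?_⟩
    rw [one_mul]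
    have h := sub_sig (n := 6 * m) {6 * m, 3 * m, 2 * m, m} (by
      intro d hd
      simp only [mem_insert, mem_singleton] at hd
      rcases hd with rfl | rfl | rfl | rfl
      · exact dvd_rfl
      · exact ⟨2, by ring⟩
      · exact ⟨3, by ring⟩
      · exact ⟨6, by ring⟩) (by omega)
    rw [sum_insert (by simp; omega), sum_insert (by simp; omega), sum_pair (by omega)] at h
    omega
  · right
    refine ⟨by norm_num, by decide, ?_⟩
    have hc : Nat.Coprime 3 n := (Nat.Prime.coprime_iff_not_dvd Nat.prime_three).2 h3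
    rw [sig_mul hc]
    have h4 : sig 3 = 4 := by decide
    have h5 := sig_ge_div (n := n) (p := 2) (by omega) le_rfl he
    rw [h4]
    omega

lemma good_two_pow {n j : ℕ} (ho : ¬ 2 ∣ n)
    (h : 2 ^ (j + 1) * n ≤ (2 ^ (j + 1) - 1) * sig n) : Good n (2 ^ j) := by
  have h1 := sig_two_pow j
  have h2 : 2 ^ (j + 1) = 2 * 2 ^ j := by ring
  have h3 : 1 ≤ 2 ^ j := Nat.one_le_two_pow
  refine ⟨h3, by omega, ?_⟩
  have hc : Nat.Coprime (2 ^ j) n :=
    Nat.Coprime.pow_left _ ((Nat.Prime.coprime_iff_not_dvd Nat.prime_two).2 ho)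
  rw [sig_mul hc]
  have h4 : sig (2 ^ j) = 2 ^ (j + 1) - 1 := by omega
  rw [h4]
  calc 2 * (2 ^ j * n) = 2 ^ (j + 1) * n := by rw [h2]; ring
    _ ≤ _ := h

lemma good_pow_of_dvd {n p j : ℕ} (hn : 1 ≤ n) (ho : ¬ 2 ∣ n) (hp : 2 ≤ p) (hpn : p ∣ n)
    (hj : p < 2 ^ (j + 1)) : Good n (2 ^ j) := by
  apply good_two_pow ho
  have h := sig_ge_div hn hp hpn
  obtain ⟨m, rfl⟩ := hpn
  rw [Nat.mul_div_cancel_left m (by omega)] at h
  obtain ⟨t, ht⟩ : ∃ t, 2 ^ (j + 1) = p + 1 + t := ⟨2 ^ (j + 1) - (p + 1), by omega⟩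
  rw [ht]
  have e : p + 1 + t - 1 = p + t := by omega
  rw [e]
  calc (p + 1 + t) * (p * m) ≤ (p + t) * (p * m + m) := by nlinarith [Nat.zero_le (t * m)]
    _ ≤ _ := Nat.mul_le_mul_left _ h

lemma exists_good {n : ℕ} (hn : 2 ≤ n) : ∃ k, Good n k := by
  by_cases he : 2 ∣ n
  · rcases good_even hn he with h | h
    · exact ⟨_, h⟩
    · exact ⟨_, h⟩
  · exact ⟨_, good_pow_of_dvd (j := n) (by omega) he hn dvd_rfl
      (Nat.lt_two_pow_self.trans (Nat.pow_lt_pow_right (by norm_num) (Nat.lt_succ_self n)))⟩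

lemma isLeast_a {n : ℕ} (hn : 2 ≤ n) : IsLeast {k | Good n k} (a n) :=
  ⟨Nat.sInf_mem (exists_good hn), fun _ hk => Nat.sInf_le hk⟩

lemma key {n k : ℕ} (hn : 1 ≤ n) (ho : ¬ 2 ∣ n) (hk : Good n k) (hna : ¬ IsAlmostPerfect k) :
    Good n (2 ^ Nat.log 2 k) := by
  obtain ⟨h1, h2, h3⟩ := hk
  have h4 : sig k + 2 ≤ 2 * k := by
    by_contra hc
    exact hna ⟨h1, by omega⟩
  have h5 : 2 * (k * n) ≤ sig k * sig n := h3.trans (sig_mul_le k n)
  have h6 : k < 2 ^ (Nat.log 2 k + 1) := Nat.lt_pow_succ_log_self (by norm_num) k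
  apply good_two_pow ho
  obtain ⟨t, ht⟩ : ∃ t, 2 ^ (Nat.log 2 k + 1) = k + 1 + t :=
    ⟨2 ^ (Nat.log 2 k + 1) - (k + 1), by omega⟩
  rw [ht]
  have e : k + 1 + t - 1 = k + t := by omega
  rw [e]
  obtain ⟨l, rfl⟩ : ∃ l, k = l + 1 := ⟨k - 1, by omega⟩
  have h7 : sig (l + 1) * sig n ≤ (2 * l) * sig n := Nat.mul_le_mul_right _ (by omega)
  have h8 : (l + 1) * n ≤ l * sig n := by nlinarith
  have h9 := le_sig hn
  nlinarith

lemma a_le {n k : ℕ} (hk : Good n k) : a n ≤ k := Nat.sInf_le hk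

lemma classify {n : ℕ} (hn : 2 ≤ n) :
    a n = 3 ∨ (∃ j, a n = 2 ^ j) ∨ IsAlmostPerfect (a n) := by
  by_cases he : 2 ∣ n
  · have h1 := (isLeast_a hn).1.1
    have h2 : a n ≤ 3 := by
      rcases good_even hn he with h | h
      · exact (a_le h).trans (by norm_num)
      · exact a_le h
    have : a n = 1 ∨ a n = 2 ∨ a n = 3 := by omega
    rcases this with h | h | h
    · exact Or.inr (Or.inl ⟨0, by simpa using h⟩)
    · exact Or.inr (Or.inl ⟨1, by simpa using h⟩)
    · exact Or.inl h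
  · by_cases hA : IsAlmostPerfect (a n)
    · exact Or.inr (Or.inr hA)
    · right; left
      have hg := (isLeast_a hn).1
      have h1 := a_le (key (by omega) he hg hA)
      have h2 : 2 ^ Nat.log 2 (a n) ≤ a n := Nat.pow_log_le_self 2 (by have := hg.1; omega)
      exact ⟨_, le_antisymm h1 h2⟩


/-- The primes in `(N, M]`. -/
def T (N M : ℕ) : Finset ℕ := (Ioc N M).filter Nat.Prime

lemma mem_T {N M p : ℕ} : p ∈ T N M ↔ (N < p ∧ p ≤ M) ∧ p.Prime := by
  unfold T; rw [mem_filter, mem_Ioc]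

lemma sig_prod (N M : ℕ) : sig (∏ p ∈ T N M, p) = ∏ p ∈ T N M, (p + 1) := by
  have h := ArithmeticFunction.isMultiplicative_sigma (k := 1) |>.map_prod_of_prime (T N M)
    (fun p hp => (mem_T.1 hp).2)
  rw [ArithmeticFunction.sigma_one_apply] at h
  unfold sig
  rw [h]
  refine prod_congr rfl fun p hp => ?_
  have hp' := (mem_T.1 hp).2
  rw [ArithmeticFunction.sigma_one_apply, Nat.Prime.sum_divisors hp', add_comm]

lemma coprime_prod {N M c : ℕ} (hc : 1 ≤ c) (hcN : c ≤ N) : c.Coprime (∏ p ∈ T N M, p) := by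
  refine Nat.Coprime.prod_right fun p hp => ?_
  have hp' := mem_T.1 hp
  refine ((Nat.Prime.coprime_iff_not_dvd hp'.2).2 fun h => ?_).symm
  have := Nat.le_of_dvd hc h
  omega

lemma prod_ge (t : Finset ℕ) (ht : ∀ p ∈ t, 0 < p) :
    ((∏ p ∈ t, p : ℕ) : ℝ) * (1 + ∑ p ∈ t, (1 : ℝ) / p) ≤ ((∏ p ∈ t, (p + 1) : ℕ) : ℝ) := by
  classical
  induction t using Finset.induction_on with
  | empty => simp
  | insert p t hp ih =>
    have ih := ih fun q hq => ht q (mem_insert_of_mem hq)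
    have hp0 : (0 : ℝ) < p := by exact_mod_cast ht p (mem_insert_self _ _)
    rw [prod_insert hp, prod_insert hp, sum_insert hp]
    push_cast at ih ⊢
    have h1 : (0 : ℝ) ≤ ∏ q ∈ t, (q : ℝ) := prod_nonneg fun q _ => Nat.cast_nonneg q
    have h2 : (0 : ℝ) ≤ ∑ q ∈ t, (1 : ℝ) / q := sum_nonneg fun q _ => by positivity
    have h3 : (p : ℝ) * (1 / p) = 1 := by field_simp
    have e : (p : ℝ) * (∏ q ∈ t, (q : ℝ)) * (1 + (1 / p + ∑ q ∈ t, (1 : ℝ) / q)) =
        p * ((∏ q ∈ t, (q : ℝ)) * (1 + ∑ q ∈ t, (1 : ℝ) / q)) + (∏ q ∈ t, (q : ℝ)) * (p * (1 / p)) := by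
      ring
    rw [e, h3]
    nlinarith [mul_le_mul_of_nonneg_left ih hp0.le, mul_nonneg h1 h2]

lemma exists_big (N : ℕ) : ∃ M, 2 * ∏ p ∈ T N M, p ≤ ∏ p ∈ T N M, (p + 1) := by
  set f : ℕ → ℝ := Set.indicator {p : ℕ | p.Prime} (fun n : ℕ => (1 : ℝ) / n) with hf
  have hf0 : ∀ n, 0 ≤ f n := fun n => Set.indicator_nonneg (fun _ _ => by positivity) n
  have h := (not_summable_iff_tendsto_nat_atTop_of_nonneg hf0).1 not_summable_one_div_on_primes
  obtain ⟨M, hM⟩ := (h.eventually_ge_atTop (1 + ∑ i ∈ range (N + 1), f i)).exists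
  refine ⟨M, ?_⟩
  have h1 : ∑ i ∈ range M, f i ≤ ∑ i ∈ range (N + 1), f i + ∑ p ∈ T N M, (1 : ℝ) / p := by
    have h2 : ∑ p ∈ T N M, (1 : ℝ) / p = ∑ p ∈ Ioc N M, f p := by
      unfold T
      rw [sum_filter]
      refine sum_congr rfl fun p _ => ?_
      rw [hf, Set.indicator_apply]
      rfl
    rw [h2]
    have h3 : range M ⊆ range (N + 1) ∪ Ioc N M := by
      intro i hi
      have := mem_range.1 hi
      rw [mem_union, mem_range, mem_Ioc]
      omega
    refine (sum_le_sum_of_subset_of_nonneg h3 fun i _ _ => hf0 i).trans ?_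
    have h4 := sum_union_inter (s₁ := range (N + 1)) (s₂ := Ioc N M) (f := f)
    have h5 : 0 ≤ ∑ i ∈ range (N + 1) ∩ Ioc N M, f i := sum_nonneg fun i _ => hf0 i
    linarith
  have h2 := prod_ge (T N M) fun p hp => (mem_T.1 hp).2.pos
  have h3 : (1 : ℝ) ≤ ∑ p ∈ T N M, (1 : ℝ) / p := by linarith
  have h4 : (0 : ℝ) ≤ ((∏ p ∈ T N M, p : ℕ) : ℝ) := Nat.cast_nonneg _
  have h5 : (2 : ℝ) * ((∏ p ∈ T N M, p : ℕ) : ℝ) ≤ ((∏ p ∈ T N M, (p + 1) : ℕ) : ℝ) := by
    nlinarith
  exact_mod_cast h5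

/-- An almost perfect number that is not a power of two gives a counterexample. -/
lemma counter {k : ℕ} (hk : IsAlmostPerfect k) (h2 : ¬ ∃ j, k = 2 ^ j) :
    ∃ n, 2 ≤ n ∧ a n ≠ 3 ∧ ¬ ∃ j, a n = 2 ^ j := by
  obtain ⟨hk1, hks⟩ := hk
  set j := Nat.log 2 k with hj
  have hj1 : 2 ^ j ≤ k := Nat.pow_log_le_self 2 (by omega)
  have hj2 : k < 2 ^ (j + 1) := Nat.lt_pow_succ_log_self (by norm_num) k
  have hj3 : k ≠ 2 ^ j := fun h => h2 ⟨j, h⟩
  have hj4 : 2 ^ (j + 1) = 2 * 2 ^ j := by ring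
  have hj5 : 1 ≤ j := by
    by_contra hc
    have : j = 0 := by omega
    rw [this] at hj1 hj2 hj3
    norm_num at hj1 hj2 hj3
    omega
  have hQ4 : 4 ≤ 2 ^ (j + 1) := by
    calc 4 = 2 ^ 2 := by norm_num
      _ ≤ 2 ^ (j + 1) := Nat.pow_le_pow_right (by norm_num) (by omega)
  set Q := 2 ^ (j + 1) with hQ
  set N := k * Q with hN
  have hex : ∃ M, 2 * k * ∏ p ∈ T N M, p ≤ (2 * k - 1) * ∏ p ∈ T N M, (p + 1) := by
    obtain ⟨M, hM⟩ := exists_big N
    refine ⟨M, ?_⟩
    have : 2 * k ≤ (2 * k - 1) * 2 := by omega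
    calc 2 * k * ∏ p ∈ T N M, p ≤ (2 * k - 1) * 2 * ∏ p ∈ T N M, p := Nat.mul_le_mul_right _ this
      _ = (2 * k - 1) * (2 * ∏ p ∈ T N M, p) := by ring
      _ ≤ _ := Nat.mul_le_mul_left _ hM
  classical
  set M := Nat.find hex with hMdef
  have hM := Nat.find_spec hex
  rw [← hMdef] at hM
  have hMN : N < M := by
    by_contra hc
    have he : T N M = ∅ := by
      rw [eq_empty_iff_forall_notMem]
      intro p hp
      have := mem_T.1 hp
      omega
    rw [he] at hM
    simp at hM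
    omega
  obtain ⟨M', hM'⟩ : ∃ M', M = M' + 1 := ⟨M - 1, by omega⟩
  have hmin : ¬ (2 * k * ∏ p ∈ T N M', p ≤ (2 * k - 1) * ∏ p ∈ T N M', (p + 1)) :=
    Nat.find_min hex (by omega)
  have hMp : M.Prime := by
    by_contra hc
    have he : T N M = T N M' := by
      ext p
      rw [mem_T, mem_T]
      constructor
      · rintro ⟨⟨h1, h3⟩, h4⟩
        have : p ≠ M := fun h => hc (h ▸ h4)
        exact ⟨⟨h1, by omega⟩, h4⟩
      · rintro ⟨⟨h1, h3⟩, h4⟩
        exact ⟨⟨h1, by omega⟩, h4⟩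
    rw [he] at hM
    exact hmin hM
  have hT : T N M = insert M (T N M') := by
    ext p
    rw [mem_insert, mem_T, mem_T]
    constructor
    · rintro ⟨⟨h1, h3⟩, h4⟩
      rcases Nat.lt_or_ge M' p with h | h
      · left; omega
      · exact Or.inr ⟨⟨h1, h⟩, h4⟩
    · rintro (rfl | ⟨⟨h1, h3⟩, h4⟩)
      · exact ⟨⟨hMN, le_rfl⟩, hMp⟩
      · exact ⟨⟨h1, by omega⟩, h4⟩
  have hnot : M ∉ T N M' := fun h => by have := (mem_T.1 h).1.2; omega
  set n := ∏ p ∈ T N M, p with hn
  set s := ∏ p ∈ T N M, (p + 1) with hs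
  have hn' : n = M * ∏ p ∈ T N M', p := by rw [hn, hT, prod_insert hnot]
  have hs' : s = (M + 1) * ∏ p ∈ T N M', (p + 1) := by rw [hs, hT, prod_insert hnot]
  set n' := ∏ p ∈ T N M', p
  set s' := ∏ p ∈ T N M', (p + 1)
  have hsn : sig n = s := sig_prod N M
  have hn0 : 0 < n := prod_pos fun p hp => (mem_T.1 hp).2.pos
  have hn'0 : 0 < n' := prod_pos fun p hp => (mem_T.1 hp).2.pos
  -- the upper bound
  have hup : (Q - 1) * s < Q * n := by
    obtain ⟨K, hK⟩ : ∃ K, 2 * k = K + 1 := ⟨2 * k - 1, by omega⟩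
    obtain ⟨R, hR⟩ : ∃ R, Q = R + 1 := ⟨Q - 1, by omega⟩
    rw [hK] at hmin
    have hmin' : K * s' < (K + 1) * n' := by
      have := not_le.1 hmin
      simpa using this
    have hKR : R + 2 ≤ K := by omega
    have hMb : k * Q < M := hMN
    have e : Q - 1 = R := by omega
    rw [e, hn', hs', hR]
    have hineq : R * (M + 1) * (K + 1) ≤ K * ((R + 1) * M) := by
      have h5 : 2 * (k * Q) < 2 * M := by omega
      have h6 : (K + 1) * (R + 1) < 2 * M := by
        rw [← hK, ← hR]; linarith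
      obtain ⟨u, hu⟩ : ∃ u, K = R + 2 + u := ⟨K - (R + 2), by omega⟩
      subst hu
      nlinarith [Nat.zero_le (u * M)]
    have h7 : K * (R * ((M + 1) * s')) < K * ((R + 1) * (M * n')) := by
      have hRM : 0 < R * (M + 1) := Nat.mul_pos (by omega) (by omega)
      calc K * (R * ((M + 1) * s')) = R * (M + 1) * (K * s') := by ring
        _ < R * (M + 1) * ((K + 1) * n') := Nat.mul_lt_mul_of_pos_left hmin' hRM
        _ = R * (M + 1) * (K + 1) * n' := by ring
        _ ≤ K * ((R + 1) * M) * n' := Nat.mul_le_mul_right _ hineq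
        _ = K * ((R + 1) * (M * n')) := by ring
    exact Nat.lt_of_mul_lt_mul_left h7
  have hkQ : k ≤ N := Nat.le_mul_of_pos_right k (by omega)
  have h3N : 3 ≤ N := by
    have : 1 * 4 ≤ k * Q := Nat.mul_le_mul hk1 hQ4
    omega
  have hodd : ¬ 2 ∣ n := by
    have := coprime_prod (N := N) (M := M) (c := 2) (by norm_num) (by omega)
    exact (Nat.Prime.coprime_iff_not_dvd Nat.prime_two).1 this
  have hn2 : 2 ≤ n := by
    rw [hn']
    have : 2 ≤ M := hMp.two_le
    nlinarith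
  have hgood : Good n k := by
    refine ⟨hk1, by omega, ?_⟩
    rw [sig_mul (coprime_prod hk1 hkQ), hsn]
    have e : sig k = 2 * k - 1 := by omega
    rw [e]
    calc 2 * (k * n) = 2 * k * n := by ring
      _ ≤ _ := hM
  have hak := a_le hgood
  have hsn' : n ≤ s := hsn ▸ le_sig hn0
  refine ⟨n, hn2, ?_, ?_⟩
  · intro h
    have hg := (isLeast_a hn2).1
    rw [h] at hg
    have h3 := hg.2.2
    rw [sig_mul (coprime_prod (N := N) (M := M) (by norm_num) h3N), hsn] at h3
    have h4 : sig 3 = 4 := by decide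
    rw [h4] at h3
    obtain ⟨R, hR⟩ : ∃ R, Q = R + 4 := ⟨Q - 4, by omega⟩
    have e : Q - 1 = R + 3 := by omega
    rw [e, hR] at hup
    have h8 : R * n ≤ R * s := Nat.mul_le_mul_left R hsn'
    have h9 : (R + 4) * n ≤ (R + 3) * s := by
      calc (R + 4) * n = R * n + 4 * n := by ring
        _ ≤ R * s + 3 * s := Nat.add_le_add h8 (by omega)
        _ = (R + 3) * s := by ring
    exact absurd hup (not_lt.2 h9)
  · rintro ⟨i, hi⟩
    have hg := (isLeast_a hn2).1
    rw [hi] at hg hak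
    have hij : i ≤ j := by
      by_contra hc
      have : Q ≤ 2 ^ i := Nat.pow_le_pow_right (by norm_num) (by omega)
      omega
    have h3 := hg.2.2
    have hc : Nat.Coprime (2 ^ i) n :=
      Nat.Coprime.pow_left _ ((Nat.Prime.coprime_iff_not_dvd Nat.prime_two).2 hodd)
    rw [sig_mul hc, hsn] at h3
    have h4 := sig_two_pow i
    have h5 : 2 ^ (i + 1) ≤ Q := Nat.pow_le_pow_right (by norm_num) (by omega)
    have h6 : 2 ^ (i + 1) = 2 * 2 ^ i := by ring
    obtain ⟨R, hR⟩ : ∃ R, sig (2 ^ i) = R := ⟨_, rfl⟩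
    rw [hR] at h3 h4
    obtain ⟨u, hu⟩ : ∃ u, Q = R + 1 + u := ⟨Q - (R + 1), by omega⟩
    have e : Q - 1 = R + u := by omega
    rw [e, hu] at hup
    have h7 : 2 * (2 ^ i * n) = (R + 1) * n := by rw [h4, h6]; ring
    rw [h7] at h3
    have h8 : u * n ≤ u * s := Nat.mul_le_mul_left u hsn'
    have h9 : (R + 1 + u) * n ≤ (R + u) * s := by
      calc (R + 1 + u) * n = (R + 1) * n + u * n := by ring
        _ ≤ R * s + u * s := Nat.add_le_add h3 h8
        _ = (R + u) * s := by ring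
    exact absurd hup (not_lt.2 h9)

lemma sig_split {N : ℕ} (hN : 0 < N) : sig N =
    ∑ d ∈ N.divisors with d * d < N, (d + N / d) + ∑ d ∈ N.divisors with d * d = N, d := by
  unfold sig
  have h1 := sum_filter_add_sum_filter_not N.divisors (fun d => d * d < N) (fun d => d)
  have h2 := sum_filter_add_sum_filter_not (N.divisors.filter fun d => ¬ d * d < N)
    (fun d => d * d = N) (fun d => d)
  rw [filter_filter, filter_filter] at h2
  have h3 : (N.divisors.filter fun d => ¬ d * d < N ∧ d * d = N) =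
      N.divisors.filter fun d => d * d = N := by
    refine filter_congr fun d _ => ⟨fun h => h.2, fun h => ⟨by omega, h⟩⟩
  have h4 : (N.divisors.filter fun d => ¬ d * d < N ∧ ¬ d * d = N) =
      N.divisors.filter fun d => N < d * d := by
    refine filter_congr fun d _ => ⟨fun h => by omega, fun h => ⟨by omega, by omega⟩⟩
  rw [h3, h4] at h2
  have h5 : ∑ d ∈ N.divisors with N < d * d, d = ∑ d ∈ N.divisors with d * d < N, N / d := by
    symm
    have key : ∀ d ∈ N.divisors, 0 < d ∧ d * (N / d) = N ∧ N / d ∈ N.divisors := by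
      intro d hd
      have hdN := Nat.dvd_of_mem_divisors hd
      exact ⟨Nat.pos_of_mem_divisors hd, Nat.mul_div_cancel' hdN,
        Nat.mem_divisors.2 ⟨Nat.div_dvd_of_dvd hdN, hN.ne'⟩⟩
    refine sum_nbij' (fun d => N / d) (fun d => N / d) ?_ ?_ ?_ ?_ (fun _ _ => rfl)
    · intro d hd
      obtain ⟨hd, hlt⟩ := mem_filter.1 hd
      obtain ⟨h0, h1, h2⟩ := key d hd
      refine mem_filter.2 ⟨h2, ?_⟩
      by_contra hc
      have : d < N / d := by
        by_contra hc'
        have : d * (N / d) ≤ d * d := Nat.mul_le_mul_left _ (by omega)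
        omega
      have : d * (N / d) < (N / d) * (N / d) := Nat.mul_lt_mul_of_pos_right this (by omega)
      omega
    · intro d hd
      obtain ⟨hd, hlt⟩ := mem_filter.1 hd
      obtain ⟨h0, h1, h2⟩ := key d hd
      refine mem_filter.2 ⟨h2, ?_⟩
      by_contra hc
      have hlt2 : N / d < d := by
        by_contra hc'
        have : d * d ≤ d * (N / d) := Nat.mul_le_mul_left _ (by omega)
        omega
      have h3 : 0 < N / d := Nat.pos_of_mem_divisors h2
      have : (N / d) * (N / d) < d * (N / d) := Nat.mul_lt_mul_of_pos_right hlt2 h3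
      omega
    · intro d hd
      obtain ⟨hd, hlt⟩ := mem_filter.1 hd
      exact Nat.div_div_self (Nat.dvd_of_mem_divisors hd) hN.ne'
    · intro d hd
      obtain ⟨hd, hlt⟩ := mem_filter.1 hd
      exact Nat.div_div_self (Nat.dvd_of_mem_divisors hd) hN.ne'
  rw [sum_add_distrib, ← h5]
  have h6 : ∑ d ∈ N.divisors, d = ∑ x ∈ N.divisors with x * x < N, x +
      (∑ x ∈ N.divisors with x * x = N, x + ∑ x ∈ N.divisors with N < x * x, x) := by
    rw [h2, h1]
  rw [h6]
  ring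

lemma square_of_odd_sig {N : ℕ} (hN : 0 < N) (ho : ¬ 2 ∣ N) (hs : ¬ 2 ∣ sig N) :
    ∃ m, N = m * m := by
  by_contra hc
  push Not at hc
  apply hs
  rw [sig_split hN]
  have h1 : (N.divisors.filter fun d => d * d = N) = ∅ := by
    rw [filter_eq_empty_iff]
    intro d _ h
    exact hc d h.symm
  rw [h1, sum_empty, add_zero]
  refine dvd_sum fun d hd => ?_
  obtain ⟨hd, _⟩ := mem_filter.1 hd
  have hdN := Nat.dvd_of_mem_divisors hd
  have h2 : d * (N / d) = N := Nat.mul_div_cancel' hdN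
  have h3 : ¬ 2 ∣ d := fun h => ho (h2 ▸ h.mul_right _)
  have h4 : ¬ 2 ∣ N / d := fun h => ho (h2 ▸ h.mul_left _)
  omega

/-- sum of `d + N / d` over the divisors `d ≤ t` -/
def S (N : ℕ) : ℕ → ℕ
  | 0 => 0
  | t + 1 => S N t + cond (Nat.beq (N % (t + 1)) 0) (t + 1 + N / (t + 1)) 0

lemma beq_true {x y : ℕ} (h : x = y) : Nat.beq x y = true := by
  subst h; exact Nat.beq_refl x

lemma beq_false {x y : ℕ} (h : x ≠ y) : Nat.beq x y = false := by
  cases h' : Nat.beq x y
  · rfl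
  · exact absurd (Nat.eq_of_beq_eq_true h') h

lemma S_eq (N t : ℕ) : S N t = ∑ d ∈ (Icc 1 t) with d ∣ N, (d + N / d) := by
  induction t with
  | zero => simp [S]
  | succ t ih =>
    have h1 : (Icc 1 (t + 1)) = insert (t + 1) (Icc 1 t) := by
      ext x; simp only [mem_Icc, mem_insert]; omega
    rw [S, ih, h1, filter_insert]
    by_cases h : t + 1 ∣ N
    · rw [if_pos h, sum_insert (by simp)]
      have : N % (t + 1) = 0 := Nat.mod_eq_zero_of_dvd h
      rw [this]
      simp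
      ring
    · rw [if_neg h]
      have : N % (t + 1) ≠ 0 := fun h' => h (Nat.dvd_of_mod_eq_zero h')
      rw [beq_false this]
      simp

lemma sig_sq {m : ℕ} (hm : 1 ≤ m) : sig (m * m) = S (m * m) (m - 1) + m := by
  have hN : 0 < m * m := Nat.mul_pos hm hm
  rw [sig_split hN, S_eq]
  congr 1
  · refine sum_congr ?_ fun _ _ => rfl
    ext d
    simp only [mem_filter, Nat.mem_divisors, mem_Icc]
    constructor
    · rintro ⟨⟨h1, h2⟩, h3⟩
      have h4 : d < m := by
        by_contra hc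
        have : m * m ≤ d * d := Nat.mul_le_mul (by omega) (by omega)
        omega
      have h5 : 0 < d := Nat.pos_of_dvd_of_pos h1 hN
      exact ⟨⟨by omega, by omega⟩, h1⟩
    · rintro ⟨⟨h1, h2⟩, h3⟩
      exact ⟨⟨h3, hN.ne'⟩, Nat.mul_self_lt_mul_self (by omega)⟩
  · have h1 : ((m * m).divisors.filter fun d => d * d = m * m) = {m} := by
      ext d
      simp only [mem_filter, Nat.mem_divisors, mem_singleton]
      constructor
      · rintro ⟨_, h⟩
        exact Nat.mul_self_inj.1 h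
      · rintro rfl
        exact ⟨⟨Dvd.intro _ rfl, hN.ne'⟩, rfl⟩
    rw [h1, sum_singleton]

/-- no `Q = 2 ^ (r + 1)`, `r < 20`, has `(Q - 1) * A = B` -/
def noPow (A B : ℕ) : ℕ → Bool
  | 0 => true
  | r + 1 => cond (Nat.beq ((2 ^ (r + 1) - 1) * A) B) false (noPow A B r)

lemma noPow_spec (A B R : ℕ) (h : noPow A B R = true) : ∀ r < R, (2 ^ (r + 1) - 1) * A ≠ B := by
  induction R with
  | zero => intro r hr; omega
  | succ R ih =>
    intro r hr
    unfold noPow at h
    rcases Nat.lt_or_ge r R with h1 | h1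
    · apply ih _ r h1
      by_cases h2 : (2 ^ (R + 1) - 1) * A = B
      · rw [beq_true h2] at h; simp at h
      · rw [beq_false h2] at h; simpa using h
    · obtain rfl : r = R := by omega
      intro h2
      rw [beq_true h2] at h
      simp at h

def chk (i : ℕ) : Bool :=
  noPow (S ((2 * i + 3) * (2 * i + 3)) (2 * i + 2) + (2 * i + 3) - (2 * i + 3) * (2 * i + 3))
    ((2 * i + 3) * (2 * i + 3) - 1) 20

def chkAll : ℕ → Bool
  | 0 => true
  | i + 1 => cond (chk i) (chkAll i) false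

lemma chkAll_spec (N : ℕ) (h : chkAll N = true) : ∀ i < N, chk i = true := by
  induction N with
  | zero => intro i hi; omega
  | succ N ih =>
    intro i hi
    unfold chkAll at h
    cases hc : chk N with
    | false => rw [hc] at h; simp at h
    | true =>
      rw [hc] at h
      rcases Nat.lt_or_ge i N with h1 | h1
      · exact ih (by simpa using h) i h1
      · obtain rfl : i = N := by omega
        exact hc

lemma chk499 : chkAll 499 = true := by decide +kernel

/-- Every almost perfect number below `1001 ^ 2` is a power of two. -/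
lemma small {k : ℕ} (hk : IsAlmostPerfect k) (hlt : k < 1002001) : ∃ j, k = 2 ^ j := by
  obtain ⟨hk1, hks⟩ := hk
  obtain ⟨r, M, hM, hkM⟩ := Nat.exists_eq_two_pow_mul_odd (n := k) (by omega)
  have hM2 : ¬ 2 ∣ M := fun h => by
    obtain ⟨c, hc⟩ := hM
    omega
  have hM0 : 0 < M := by
    obtain ⟨c, hc⟩ := hM
    omega
  by_cases hM1 : M = 1
  · exact ⟨r, by rw [hkM, hM1, mul_one]⟩
  exfalso
  have hc : Nat.Coprime (2 ^ r) M :=
    Nat.Coprime.pow_left _ ((Nat.Prime.coprime_iff_not_dvd Nat.prime_two).2 hM2)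
  have h1 := sig_two_pow r
  have h2 : 2 ^ (r + 1) = 2 * 2 ^ r := by ring
  have h3 : 1 ≤ 2 ^ r := Nat.one_le_two_pow
  rw [hkM, sig_mul hc] at hks
  have h4 : sig (2 ^ r) = 2 ^ (r + 1) - 1 := by omega
  rw [h4] at hks
  have h5 : 2 * (2 ^ r * M) = 2 ^ (r + 1) * M := by rw [h2]; ring
  rw [h5] at hks
  have hodd : ¬ 2 ∣ sig M := by
    rintro ⟨c, hc⟩
    rw [hc] at hks
    have h6 : 2 ^ (r + 1) * M = 2 * (2 ^ r * M) := h5.symm
    have h7 : (2 ^ (r + 1) - 1) * (2 * c) = 2 * ((2 ^ (r + 1) - 1) * c) := by ring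
    omega
  obtain ⟨m, rfl⟩ := square_of_odd_sig hM0 hM2 hodd
  have hm2 : ¬ 2 ∣ m := fun h => hM2 (h.mul_right _)
  have hm3 : 3 ≤ m := by
    by_contra hcon
    have : m = 0 ∨ m = 1 ∨ m = 2 := by omega
    rcases this with rfl | rfl | rfl
    · simp at hM0
    · simp at hM1
    · simp at hm2
  have hmk : m * m ≤ k := by
    rw [hkM]; exact Nat.le_mul_of_pos_left _ h3
  have hm1001 : m < 1001 := by
    by_contra hcon
    have : 1001 * 1001 ≤ m * m := Nat.mul_le_mul (by omega) (by omega)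
    omega
  have hr20 : r < 20 := by
    by_contra hcon
    have h6 : 2 ^ 20 ≤ 2 ^ r := Nat.pow_le_pow_right (by norm_num) (by omega)
    have h7 : 2 ^ r * 1 ≤ 2 ^ r * (m * m) := Nat.mul_le_mul_left _ hM0
    rw [← hkM] at h7
    norm_num at h6
    omega
  obtain ⟨i, hi⟩ : ∃ i, m = 2 * i + 3 := ⟨(m - 3) / 2, by omega⟩
  have hchk := chkAll_spec 499 chk499 i (by omega)
  unfold chk at hchk
  have hsp := noPow_spec _ _ _ hchk r hr20
  apply hsp
  have h6 := sig_sq (m := m) (by omega)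
  have h7 : m - 1 = 2 * i + 2 := by omega
  rw [h7] at h6
  rw [← hi, ← h6]
  rw [Nat.mul_sub]
  obtain ⟨R, hR⟩ : ∃ R, 2 ^ (r + 1) = R + 1 := ⟨2 ^ (r + 1) - 1, by omega⟩
  rw [hR] at hks ⊢
  have e : R + 1 - 1 = R := by omega
  rw [e] at hks ⊢
  have e2 : (R + 1) * (m * m) = R * (m * m) + m * m := by ring
  omega


/-- The least multiplier `a n` is `3`, a power of two, or an almost perfect number; the assertion
of the problem holds for every `n` with a prime factor below one million; and for all `n` it is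
equivalent to: every almost perfect number is a power of two. -/
theorem result :
    (∀ n : ℕ, 2 ≤ n → IsLeast {k | Good n k} (a n)) ∧
    (∀ n : ℕ, 2 ≤ n → a n = 3 ∨ (∃ j, a n = 2 ^ j) ∨ IsAlmostPerfect (a n)) ∧
    (∀ n p : ℕ, 2 ≤ n → p.Prime → p ∣ n → p < 1000000 → a n = 3 ∨ ∃ j, a n = 2 ^ j) ∧
    ((∀ n : ℕ, 2 ≤ n → a n = 1 ∨ a n = 3 ∨ ∃ j, a n = 2 ^ j) ↔
      ∀ k : ℕ, IsAlmostPerfect k → ∃ j, k = 2 ^ j) := by
  refine ⟨fun n hn => isLeast_a hn, fun n hn => classify hn, ?_, ?_, ?_⟩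
  · intro n p hn hp hpn hlt
    rcases classify hn with h1 | h1 | h1
    · exact Or.inl h1
    · exact Or.inr h1
    · right
      by_cases ho : 2 ∣ n
      · have h2 : a n ≤ 3 := by
          rcases good_even hn ho with h | h
          · exact (a_le h).trans (by norm_num)
          · exact a_le h
        exact small h1 (by omega)
      · have h2 : 2 ^ Nat.log 2 p ≤ p := Nat.pow_log_le_self 2 hp.ne_zero
        have h3 := a_le (good_pow_of_dvd (by omega) ho hp.two_le hpn
          (Nat.lt_pow_succ_log_self (by norm_num) p))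
        exact small h1 (by omega)
  · intro h k hk
    by_contra h2
    obtain ⟨n, hn, h3, h4⟩ := counter hk h2
    rcases h n hn with h5 | h5 | h5
    · exact h4 ⟨0, by simpa using h5⟩
    · exact h3 h5
    · exact h4 h5
  · intro h n hn
    rcases classify hn with h1 | h1 | h1
    · exact Or.inr (Or.inl h1)
    · exact Or.inr (Or.inr h1)
    · exact Or.inr (Or.inr (h _ h1))

end Pool.Agent.Results.MP_c5ead3_nt.AlmostPerfect
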